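import Pool.Agent.helper55.VDI.SpecB1
import Pool.Agent.helper43.VD.EET

/-!
# Project INF (MP_07c750_an), row EETB: transport of the coefficients along the flow, two metrics
-/

set_option autoImplicit false

open scoped ContDiff Topology InnerProductSpace ComplexConjugate ENNReal
open MeasureTheory Filter Set

namespace Pool.Agent.VDI

open Pool.Agent.VD
open Pool.Agent.VQ (CH KZ PS perZ cmZ)
open Pool.Agent.RPQ (IsOp)
open Pool.Agent.VDA (STP FB FR FT nY OY OA)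
open Pool.Agent.VDE (FDX)

theorem EETB_proof (hEAX : VDA.EAX_stmt) (hEED : EEDB_stmt) (hEEBB : EEBB_stmt) (hEEF : EEF_stmt) (hEYP : EYP_stmt) (hASAD : ASAD_stmt) (hAFBD : AFBD_stmt) (hAFMD : AFMD_stmt)
    (hAFRD : AFRD_stmt) (hAMVI : AMVI_stmt) : EETB_stmt := by
  intro d Γ _ _ K k B b r0 χ hK hPU
  obtain ⟨C1, hC1, hEED⟩ := hEED d Γ K k B r0 χ hK hPU
  obtain ⟨C2, hC2, hEEF⟩ := hEEF d Γ K k B r0 χ hK hPU
  obtain ⟨C3, hC3, hASAD⟩ := hASAD d Γ K k B r0 χ hK hPU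
  obtain ⟨C4, hC4, hAFBD⟩ := hAFBD d Γ K k B r0 hK
  obtain ⟨C5, hC5, hAFMD⟩ := hAFMD d Γ K k B r0 χ hK hPU
  obtain ⟨C6, hC6, hAFRD⟩ := hAFRD d Γ K k B r0 hK
  obtain ⟨C7, hC7, hEEBB⟩ := hEEBB d Γ K k B b r0 χ hK hPU
  have hP : 0 ≤ C4 * C5 := by positivity
  obtain ⟨CC, hCC⟩ : ∃ CC : ℝ, CC = C1 + C2 + C3 + C7 + 4 * (C5 + C4 * C5) := ⟨_, rfl⟩
  have hCC1 : 1 ≤ CC := by rw [hCC]; linarith
  refine ⟨CC, hCC1, ?_⟩
  intro ch A hch hA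
  obtain ⟨hz, hzz1, hz1, hz12, hz2, hCz1, hCz2, -⟩ := EAM1 hA hCC1
  have hz2l : A.z2 ≤ 1 := by
    have := mul_le_mul_of_nonneg_right hCC1 hz2.le
    linarith
  have hCz : CC * A.z1 ≤ 1 := hCz1.trans hz2l
  have hle : ∀ c : ℝ, c ≤ CC → c * A.z1 ≤ 1 := fun c hc => (mul_le_mul_of_nonneg_right hc hz1.le).trans hCz
  have q3 : C3 * A.z1 ≤ 1 := hle _ (by rw [hCC]; linarith)
  have q5 : C5 * A.z1 ≤ 1 := hle _ (by rw [hCC]; linarith)
  have q45 : 4 * (C5 + C4 * C5) * A.z1 ≤ 1 := hle _ (by rw [hCC]; linarith)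
  have p5 : 0 < C5 * A.z1 := by positivity
  have p45 : 0 < C4 * (C5 * A.z1) := by positivity
  have e45 : 4 * (C5 * A.z1) + 4 * (C4 * (C5 * A.z1)) ≤ 1 := by linarith
  obtain ⟨RD, -, hEED⟩ := hEED ch A hch (EAM0 hA hC1 (by rw [hCC]; linarith))
  obtain ⟨N, RF, -, hEEF⟩ := hEEF ch A hch (EAM0 hA hC2 (by rw [hCC]; linarith))
  obtain ⟨RE, -, hEEBB⟩ := hEEBB ch A hch (EAM0 hA hC7 (by rw [hCC]; linarith))
  obtain ⟨RS, -, hASAD⟩ := hASAD ch A.z A.z1 hch hz hzz1 q3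
  obtain ⟨Kd, RB, -, hAFBD⟩ := hAFBD (C5 * A.z1) p5 (by linarith)
  obtain ⟨RM, -, hAFMD⟩ := hAFMD ch Kd A.z A.z1 10 hch hz hzz1 q5
  obtain ⟨L0, hL0⟩ : ∃ L0 : ℝ, L0 = ∑ n ∈ Finset.range (N + 1), |B N n| := ⟨_, rfl⟩
  have hL00 : 0 ≤ L0 := by rw [hL0]; exact Finset.sum_nonneg fun i _ => abs_nonneg _
  have ev1 : ∀ᶠ R : ℝ in atTop, L0 ^ 2 ≤ R ^ (1 / 2 : ℝ) := (tendsto_rpow_atTop (by norm_num : (0 : ℝ) < 1 / 2)).eventually (eventually_ge_atTop _)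
  have ev2 : ∀ᶠ R : ℝ in atTop, (100 : ℝ) ≤ R ^ (19 / 6060 : ℝ) := (tendsto_rpow_atTop (by norm_num : (0 : ℝ) < 19 / 6060)).eventually (eventually_ge_atTop _)
  obtain ⟨Re, hRe⟩ := eventually_atTop.1 (ev1.and (ev2.and ((eventually_ge_atTop RD).and ((eventually_ge_atTop RF).and ((eventually_ge_atTop RS).and
    ((eventually_ge_atTop RB).and ((eventually_ge_atTop RM).and ((eventually_ge_atTop RE).and (eventually_ge_atTop C6)))))))))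
  refine ⟨max 1 Re, le_max_left _ _, ?_⟩
  intro R t F G Φ f u hR hF hOK h ht0 ht1
  obtain ⟨G', hNr, hAp⟩ := h
  have hR1 : 1 ≤ R := (le_max_left _ _).trans hR
  have hR0 : 0 < R := by linarith
  obtain ⟨hl, h46, hRD, hRF, hRS, hRB, hRM, hRE, hRC⟩ := hRe R ((le_max_right _ _).trans hR)
  have hDm : Dm (⊤ : Subgroup Γ) F {(1 : Γ)} := Or.inl ⟨rfl, hF, rfl⟩
  obtain ⟨hcnt, -, -, -, hfin, -⟩ := hAMVI d Γ K k B G hK hOK.cls
  obtain ⟨hWm, -, -, hemb, hY, -, hvol⟩ := hEYP d Γ G r0 2 R hOK.cls.met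
  have hN0 : 0 ≤ nn G F u := integral_nonneg fun z => by positivity
  -- the families
  have hFaP : ∀ s : ℝ, |s| ≤ 1 → Fa (Γ := Γ) G Φ r0 Kd (C5 * A.z1) (R ^ (3 * (d : ℝ) / 4 + C5 * A.z1)) R s (fP G Φ χ ch A.z A.z1 R s) := fun s hs => (hAFMD R s G Φ hRM hOK hs).1
  have hFaE : ∀ s : ℝ, |s| ≤ 1 → Fa (Γ := Γ) G Φ r0 Kd (C5 * A.z1) (R ^ (3 * (d : ℝ) / 4 - 1 / 2 + C5 * A.z1)) R s (fE G Φ χ ch A.z A.z1 R s) := fun s hs => (hAFMD R s G Φ hRM hOK hs).2.1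
  obtain ⟨-, -, hFaG, hFaD, -, hGp⟩ := hAFMD R 0 G Φ hRM hOK (by simp)
  have hrpow : ∀ x : ℝ, 0 ≤ R ^ x := fun x => Real.rpow_nonneg hR0.le x
  have p4 : C5 * A.z1 ≤ 1 / 4 := by linarith
  have rP := fun (s : ℝ) (hs : |s| ≤ 1) => hAFRD Kd _ _ R s G Φ _ hRC hOK p5 p4 (hrpow _) hs (hFaP s hs)
  have rE := fun (s : ℝ) (hs : |s| ≤ 1) => hAFRD Kd _ _ R s G Φ _ hRC hOK p5 p4 (hrpow _) hs (hFaE s hs)
  have rG := hAFRD Kd _ _ R 0 G Φ _ hRC hOK p5 p4 (hrpow _) (by simp) hFaG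
  have rD := hAFRD Kd _ _ R 0 G Φ _ hRC hOK p5 p4 (hrpow _) (by simp) hFaD
  have RFP : ∀ s : ℝ, |s| ≤ 1 → EET_RF Γ G r0 R (fP G Φ χ ch A.z A.z1 R s) := fun s hs => EET_rf (hFaP s hs) (rP s hs).1
  have RFG : EET_RF Γ G r0 R (fG G χ ch A.z R) := EET_rf hFaG rG.1
  have FPP : ∀ (s : ℝ) (hs : |s| ≤ 1) (φ : V d → ℂ), FH (⊤ : Subgroup Γ) F φ → FP (⊤ : Subgroup Γ) {(1 : Γ)} (aF G r0 R (fP G Φ χ ch A.z A.z1 R s) φ) := fun s hs φ hφ =>
    ((rP s hs).2.2 ⊤ F _ hDm).2.1 φ hφ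
  have FPE : ∀ (s : ℝ) (hs : |s| ≤ 1) (φ : V d → ℂ), FH (⊤ : Subgroup Γ) F φ → FP (⊤ : Subgroup Γ) {(1 : Γ)} (aF G r0 R (fE G Φ χ ch A.z A.z1 R s) φ) := fun s hs φ hφ =>
    ((rE s hs).2.2 ⊤ F _ hDm).2.1 φ hφ
  have FPD : FP (⊤ : Subgroup Γ) {(1 : Γ)} (aF G r0 R (fun (y : YS Γ d) w => fP G Φ χ ch A.z A.z1 R 0 y w - fG G χ ch A.z R y w) u) := (rD.2.2 ⊤ F _ hDm).2.1 u hAp.fh
  -- measurability on the window
  have hms : ∀ x : YS Γ d → ℂ, Measurable x → AEStronglyMeasurable (fun p : P d => x (y1 Γ p)) ((volume : Measure (P d)).restrict (WP G r0 2 R)) := fun x hx =>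
    (hx.comp hemb.measurable).aestronglyMeasurable
  -- the function `g`
  have hΦc : Continuous fun q : ℝ × P d => Φ q.1 q.2 := hOK.flow.smooth.continuous
  have hfc : Continuous f := hAp.sm.smooth.continuous
  have hgc : Continuous fun z : V d => R / 2 * f z := continuous_const.mul hfc
  have hginv : Inv Γ (fun z : V d => R / 2 * f z) := fun γ x => by
    show R / 2 * f (γ • x) = R / 2 * f x
    rw [hAp.sm.inv γ x]
  have hgsm : ContDiff ℝ ∞ (fun z : V d => R / 2 * f z) := contDiff_const.mul hAp.sm.smooth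
  have hg3 : Continuous fun x : P d × ℝ => R / 2 * f (Φ x.2 x.1).1 :=
    hgc.comp (continuous_fst.comp (hΦc.comp (f := fun x : P d × ℝ => ((x.2, x.1) : ℝ × P d)) (by fun_prop)))
  have hgb : ∀ z : V d, |R / 2 * f z| ≤ R ^ (1 / 100 : ℝ) := by
    intro z
    have h1 := hAp.sm.bd z
    rw [abs_mul, abs_of_pos (by positivity : 0 < R / 2)]
    have h2 := mul_le_mul_of_nonneg_left h1 (by positivity : 0 ≤ R / 2)
    have h3 : R / 2 * (R ^ (1 / 100 : ℝ) / R) = R ^ (1 / 100 : ℝ) / 2 := by field_simp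
    have h4 := hrpow (1 / 100)
    linarith
  have hgu := EET_fh (Γ := Γ) (F := F) (fun z : V d => R / 2 * f z) u hginv hgc hAp.fh
  have hχ := EET_fs (Γ := Γ) (F := F) _ _ hAp.hh hgu
  have hχn := EET_nn (Γ := Γ) hfin hF _ u _ hAp.fh.cont hAp.res
  obtain ⟨hE1, hE2, hE3, hE4⟩ := hEED R G Φ u (Hop G' R u) hRD hOK hAp.fh.cont hAp.hh.cont
  obtain ⟨Q, hQ⟩ : ∃ Q : ℝ, Q = R ^ (-(2 / 101) : ℝ) := ⟨_, rfl⟩
  have hQ0 : 0 ≤ Q := by rw [hQ]; exact hrpow _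
  have hQN : 0 ≤ Q * nn G F u := mul_nonneg hQ0 hN0
  have habs : ∀ s ∈ Icc (0 : ℝ) 1, |s| ≤ 1 := fun s hs => by rw [abs_of_nonneg hs.1]; exact hs.2
  -- the three bounds
  have ba : ∀ s ∈ Icc (0 : ℝ) 1, nP G r0 {(1 : Γ)} 2 R (fun y => aF G r0 R (fP G Φ χ ch A.z A.z1 R s) (fun z => ((R / 2 * f z : ℝ) : ℂ) * u z) y -
      ((R / 2 * f (Φ s y.2).1 : ℝ) : ℂ) * aF G r0 R (fP G Φ χ ch A.z A.z1 R s) u y) ≤ Q * nn G F u := by
    intro s hs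
    have hLd := EET_der hR1 hAp.sm N
    rw [← hL0] at hLd
    refine (hEEF R s (L0 * R ^ (1 / 100 : ℝ)) F G Φ u (fun z => R / 2 * f z) hRF hF hOK hAp.fh hginv hgsm (mul_nonneg hL00 (hrpow _)) hLd hs.1 hs.2).trans ?_
    refine mul_le_mul_of_nonneg_right ?_ hN0
    have e1 : (L0 * R ^ (1 / 100 : ℝ)) ^ 2 * R ^ (-(9 / 10) : ℝ) = L0 ^ 2 * R ^ (-(88 / 100) : ℝ) := by
      rw [mul_pow, ← Real.rpow_natCast (R ^ (1 / 100 : ℝ)), ← Real.rpow_mul hR0.le, mul_assoc, ← Real.rpow_add hR0]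
      norm_num
    rw [e1]
    calc L0 ^ 2 * R ^ (-(88 / 100) : ℝ) ≤ R ^ (1 / 2 : ℝ) * R ^ (-(88 / 100) : ℝ) := mul_le_mul_of_nonneg_right hl (hrpow _)
      _ = R ^ (-(38 / 100) : ℝ) := by rw [← Real.rpow_add hR0]; norm_num
      _ ≤ Q := by rw [hQ]; exact Real.rpow_le_rpow_of_exponent_le hR1 (by norm_num)
  have bb1 : ∀ s ∈ Icc (0 : ℝ) 1, nP G r0 {(1 : Γ)} 2 R (aF G r0 R (fP G Φ χ ch A.z A.z1 R s) (fun z => Hop G' R u z - ((R / 2 * f z : ℝ) : ℂ) * u z)) ≤ 4 * (Q * nn G F u) := by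
    intro s hs
    refine ((hASAD R s G Φ hRS hOK hs.1 hs.2 ⊤ F _ hDm).2 _ hχ).trans ?_
    have e0 : R ^ (-(9 / 40) : ℝ) ≤ 1 := Real.rpow_le_one_of_one_le_of_nonpos hR1 (by norm_num)
    have e1 : (1 + R ^ (-(9 / 40) : ℝ)) ^ 2 ≤ 2 ^ 2 := pow_le_pow_left₀ (by linarith [hrpow (-(9 / 40))]) (by linarith) 2
    have e2 : (R ^ (-(1 / 101) : ℝ)) ^ 2 ≤ Q := by rw [hQ]; exact EET_n2 R _ hR1 le_rfl
    calc (1 + R ^ (-(9 / 40) : ℝ)) ^ 2 * nn G F (fun z => Hop G' R u z - ((R / 2 * f z : ℝ) : ℂ) * u z)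
        ≤ 2 ^ 2 * ((R ^ (-(1 / 101) : ℝ)) ^ 2 * nn G F u) := mul_le_mul e1 hχn (integral_nonneg fun z => by positivity) (by norm_num)
      _ ≤ 2 ^ 2 * (Q * nn G F u) := mul_le_mul_of_nonneg_left (mul_le_mul_of_nonneg_right e2 hN0) (by norm_num)
      _ = _ := by ring
  have bb2 : ∀ s ∈ Icc (0 : ℝ) 1, nP G r0 {(1 : Γ)} 2 R (aF G r0 R (fE G Φ χ ch A.z A.z1 R s) u) ≤ Q * nn G F u := by
    intro s hs
    refine ((hAFBD R _ s G Φ _ hRB hOK (hrpow _) (habs s hs) (hFaE s (habs s hs)) ⊤ F _ hDm).2 u hAp.fh).trans ?_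
    refine mul_le_mul_of_nonneg_right ?_ hN0
    rw [← Real.rpow_add hR0, hQ]
    refine EET_n2 R _ hR1 ?_
    linarith
  have bb0 : nP G r0 {(1 : Γ)} 2 R (aF G r0 R (fun (y : YS Γ d) w => fP G Φ χ ch A.z A.z1 R 0 y w - fG G χ ch A.z R y w) u) ≤ Q * nn G F u := by
    refine ((hAFBD R _ 0 G Φ _ hRB hOK (hrpow _) (by simp) hFaD ⊤ F _ hDm).2 u hAp.fh).trans ?_
    refine mul_le_mul_of_nonneg_right ?_ hN0
    rw [← Real.rpow_add hR0, hQ]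
    refine EET_n2 R _ hR1 ?_
    have hd : (0 : ℝ) ≤ (d : ℝ) := Nat.cast_nonneg d
    linarith
  -- transport
  obtain ⟨pp, hpp⟩ : ∃ pp : ℝ → P d → ℂ, pp = fun s p => aF G r0 R (fP G Φ χ ch A.z A.z1 R s) u (y1 Γ p) := ⟨_, rfl⟩
  obtain ⟨g, hg⟩ : ∃ g : ℝ → P d → ℝ, g = fun s p => R / 2 * f (Φ s p).1 := ⟨_, rfl⟩
  obtain ⟨r, hr⟩ : ∃ r : ℝ → P d → ℂ, r = fun s p => aF G r0 R (fP G Φ χ ch A.z A.z1 R s) (Hop G' R u) (y1 Γ p) + aF G r0 R (fE G Φ χ ch A.z A.z1 R s) u (y1 Γ p) -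
    ((R / 2 * f (Φ s p).1 : ℝ) : ℂ) * aF G r0 R (fP G Φ χ ch A.z A.z1 R s) u (y1 Γ p) + eB G Φ χ ch A.z A.z1 R u (Hop G' R u) s p := ⟨_, rfl⟩
  have hrc : ContinuousOn (fun x : P d × ℝ => r x.2 x.1) (WP G r0 2 R ×ˢ Icc 0 1) := by
    rw [hr]
    exact (((hE2 _ hAp.hh.cont).add hE3).sub ((Complex.continuous_ofReal.comp hg3).continuousOn.mul (hE2 _ hAp.fh.cont))).add hE4
  have hIcc : Icc 0 t ⊆ Icc (0 : ℝ) 1 := Icc_subset_Icc_right ht1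
  have hcore := hEAX (P d) volume (WP G r0 2 R) pp r g t (2 * (Q * nn G F u) + 2 * (2 * (2 * (4 * (Q * nn G F u)) + 2 * (Q * nn G F u)) + 2 * (Q * nn G F u))) ht0 hWm (by positivity) ?_ ?_ ?_ ?_ ?_
  rotate_left
  · intro p _
    rw [hg]
    exact hg3.comp (f := fun s : ℝ => ((p, s) : P d × ℝ)) (by fun_prop)
  · intro p hp
    exact hrc.comp (f := fun s : ℝ => ((p, s) : P d × ℝ)) (by fun_prop) (fun s hs => ⟨hp, hIcc hs⟩)
  · intro p hp s hs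
    have h1 := hE1 p hp s (hIcc hs)
    rw [hpp, hg, hr]
    refine h1.congr_deriv ?_
    ring
  · rw [Measure.prod_restrict]
    exact ((hrc.mono (prod_mono subset_rfl hIcc)).aestronglyMeasurable (hWm.prod measurableSet_Icc)).enorm.pow_const 2
  · intro s hs
    have hs1 := hIcc hs
    have hsa := habs s hs1
    have m1 : Measurable fun y : YS Γ d => aF G r0 R (fP G Φ χ ch A.z A.z1 R s) (fun z => ((R / 2 * f z : ℝ) : ℂ) * u z) y := (FPP s hsa _ hgu).meas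
    have m2 : Measurable fun y : YS Γ d => aF G r0 R (fP G Φ χ ch A.z A.z1 R s) u y := (FPP s hsa _ hAp.fh).meas
    obtain ⟨b1, hb1⟩ := (FPP s hsa _ hgu).bdd
    obtain ⟨b2, hb2⟩ := (FPP s hsa _ hAp.fh).bdd
    have gm : Measurable fun p : P d => ((R / 2 * f (Φ s p).1 : ℝ) : ℂ) :=
      (Complex.continuous_ofReal.comp (hg3.comp (f := fun p : P d => ((p, s) : P d × ℝ)) (by fun_prop))).measurable
    have l1 := (EET_ln hY hvol (fun y : YS Γ d => aF G r0 R (fP G Φ χ ch A.z A.z1 R s) (fun z => ((R / 2 * f z : ℝ) : ℂ) * u z) y -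
      ((R / 2 * f (Φ s y.2).1 : ℝ) : ℂ) * aF G r0 R (fP G Φ χ ch A.z A.z1 R s) u y)
      (((m1.comp hemb.measurable).sub (gm.mul (m2.comp hemb.measurable))).aestronglyMeasurable)
      ⟨b1 + R ^ (1 / 100 : ℝ) * b2, fun y => by
        refine (norm_sub_le _ _).trans (add_le_add (hb1 y) ?_)
        rw [norm_mul, Complex.norm_real, Real.norm_eq_abs]
        exact mul_le_mul (hgb _) (hb2 y) (norm_nonneg _) (hrpow _)⟩).le.trans (ENNReal.ofReal_le_ofReal (ba s hs1))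
    have f2 := FPP s hsa _ hχ
    have f3 := FPE s hsa _ hAp.fh
    have l2 := (EET_ln hY hvol _ (hms _ f2.meas) f2.bdd).le.trans (ENNReal.ofReal_le_ofReal (bb1 s hs1))
    have l3 := (EET_ln hY hvol _ (hms _ f3.meas) f3.bdd).le.trans (ENNReal.ofReal_le_ofReal (bb2 s hs1))
    have l4 := EET_s2 ((volume : Measure (P d)).restrict (WP G r0 2 R)) _ _
      (fun p => aF G r0 R (fP G Φ χ ch A.z A.z1 R s) (fun z => Hop G' R u z - ((R / 2 * f z : ℝ) : ℂ) * u z) (y1 Γ p) + aF G r0 R (fE G Φ χ ch A.z A.z1 R s) u (y1 Γ p)) _ _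
      (hms _ f3.meas) (by positivity) hQN (Eventually.of_forall fun p => norm_add_le _ _) l2 l3
    have m5 : AEStronglyMeasurable (fun p : P d => eB G Φ χ ch A.z A.z1 R u (Hop G' R u) s p) ((volume : Measure (P d)).restrict (WP G r0 2 R)) :=
      (hE4.comp (f := fun p : P d => ((p, s) : P d × ℝ)) (by fun_prop) (fun p hp => ⟨hp, hs1⟩)).aestronglyMeasurable hWm
    have l5 : ∫⁻ p in WP G r0 2 R, ‖eB G Φ χ ch A.z A.z1 R u (Hop G' R u) s p‖ₑ ^ 2 ≤ ENNReal.ofReal (Q * nn G F u) := by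
      refine (hEEBB R s F G G' Φ f u hRE hF hOK hNr hAp hs1.1 hs1.2).trans (ENNReal.ofReal_le_ofReal (mul_le_mul_of_nonneg_right ?_ hN0))
      rw [hQ]
      exact Real.rpow_le_rpow_of_exponent_le hR1 (by norm_num)
    have l6 := EET_s2 ((volume : Measure (P d)).restrict (WP G r0 2 R)) _ _
      (fun p => (aF G r0 R (fP G Φ χ ch A.z A.z1 R s) (fun z => Hop G' R u z - ((R / 2 * f z : ℝ) : ℂ) * u z) (y1 Γ p) + aF G r0 R (fE G Φ χ ch A.z A.z1 R s) u (y1 Γ p)) +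
        eB G Φ χ ch A.z A.z1 R u (Hop G' R u) s p) _ _
      m5 (by positivity) hQN (Eventually.of_forall fun p => norm_add_le _ _) l4 l5
    refine EET_s2 ((volume : Measure (P d)).restrict (WP G r0 2 R)) _ _ _ _ _ (((hms _ f2.meas).add (hms _ f3.meas)).add m5) hQN (by positivity) ?_ l1 l6
    refine (ae_restrict_iff' hWm).2 (Eventually.of_forall fun p hp => ?_)
    refine le_trans (le_of_eq ?_) (norm_add_le _ _)
    congr 1
    rw [hr]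
    simp only []
    rw [EET_add hfin (RFP s hsa) p hp _ _ (Hop G' R u) hgu.cont hχ.cont (fun z => by ring)]
    have e1 : (y1 Γ p).2 = p := rfl
    rw [e1, Pi.add_apply, Pi.add_apply]
    ring
  -- the conclusion
  have hθ : ∀ p : P d, (∫ s in (0 : ℝ)..t, g s p) = thP Φ f R t p := by
    intro p
    rw [hg]
    unfold thP
    exact intervalIntegral.integral_const_mul _ _
  have htt : t ^ 2 ≤ 1 := by nlinarith
  have hcore2 := hcore.trans (ENNReal.ofReal_le_ofReal (mul_le_mul_of_nonneg_right htt (by positivity : 0 ≤ 2 * (Q * nn G F u) + 2 * (2 * (2 * (4 * (Q * nn G F u)) + 2 * (Q * nn G F u)) + 2 * (Q * nn G F u)))))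
  have hD := (EET_ln hY hvol _ (hms _ FPD.meas) FPD.bdd).le.trans (ENNReal.ofReal_le_ofReal bb0)
  refine EET_le hY _ _ (mul_nonneg (hrpow _) hN0) ?_
  have hfin2 := EET_s2 ((volume : Measure (P d)).restrict (WP G r0 2 R)) _ _
    (fun p => aF G r0 R (fP G Φ χ ch A.z A.z1 R t) u (y1 Γ p) - Complex.exp (((thP Φ f R t (y1 Γ p).2 : ℝ) : ℂ) * Complex.I) * QF G χ ch A.z R u (y1 Γ p)) _ _
    (hms _ FPD.meas) (by positivity) hQN ?_ hcore2 hD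
  · refine hfin2.trans (ENNReal.ofReal_le_ofReal ?_)
    have e1 : R ^ (-(1 / 60) : ℝ) = R ^ (19 / 6060 : ℝ) * Q := by
      rw [hQ, ← Real.rpow_add hR0]
      norm_num
    rw [e1, mul_assoc]
    have e2 := mul_le_mul_of_nonneg_right h46 hQN
    linarith
  · refine (ae_restrict_iff' hWm).2 (Eventually.of_forall fun p hp => ?_)
    have e0 : aF G r0 R (fun (y : YS Γ d) w => fP G Φ χ ch A.z A.z1 R 0 y w - fG G χ ch A.z R y w) u (y1 Γ p) = pp 0 p - QF G χ ch A.z R u (y1 Γ p) := by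
      rw [EET_sub hfin (RFP 0 (by simp)) RFG p hp u hAp.fh.cont, hpp, EET_aF (fG G χ ch A.z R) p hp]
      unfold QF
      simp only [hGp]
    rw [e0, hθ]
    have e1 : (y1 Γ p).2 = p := rfl
    rw [e1]
    have e2 : aF G r0 R (fP G Φ χ ch A.z A.z1 R t) u (y1 Γ p) = pp t p := by rw [hpp]
    rw [e2]
    have e3 : pp t p - Complex.exp (((thP Φ f R t p : ℝ) : ℂ) * Complex.I) * QF G χ ch A.z R u (y1 Γ p) =
        (pp t p - Complex.exp (((thP Φ f R t p : ℝ) : ℂ) * Complex.I) * pp 0 p) + Complex.exp (((thP Φ f R t p : ℝ) : ℂ) * Complex.I) * (pp 0 p - QF G χ ch A.z R u (y1 Γ p)) := by ring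
    rw [e3]
    refine (norm_add_le _ _).trans (le_of_eq ?_)
    rw [norm_mul, Complex.norm_exp_ofReal_mul_I, one_mul]

end Pool.Agent.VDI
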